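import Mathlib
import Pool.Agent.Q307.FTG.Net

set_option autoImplicit false

/-! MP_e5b41c_gt, Q2: for every Tychonoff space `X`, if `A_2(X)` is snf-countable then
`A_3(X)` is snf-countable. -/

open Filter Topology

namespace Pool.Agent.Results.MP_e5b41c_gt.AbelianLevelThreeSnf

/-- The topology of the free abelian topological group on `X` (in the sense of Markov), on the
abstract free abelian group: the finest group topology which makes the inclusion of the generators
continuous. -/
noncomputable def freeAbTopology (X : Type*) [TopologicalSpace X] :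
    AddGroupTopology (FreeAbelianGroup X) :=
  sInf {t : AddGroupTopology (FreeAbelianGroup X) |
    @Continuous X (FreeAbelianGroup X) _ t.toTopologicalSpace FreeAbelianGroup.of}

/-- `A_n(X)`: the elements of length at most `n`, i.e. `(x_1 + ... + x_p) - (y_1 + ... + y_q)` with
`x_i, y_j ∈ X` and `p + q ≤ n`. -/
def ALevel (n : ℕ) (X : Type*) : Type _ :=
  {g : FreeAbelianGroup X // ∃ A B : Multiset X, A.card + B.card ≤ n ∧
    (A.map FreeAbelianGroup.of).sum - (B.map FreeAbelianGroup.of).sum = g}

/-- `A_n(X)` carries the subspace topology. -/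
noncomputable instance (n : ℕ) (X : Type*) [TopologicalSpace X] : TopologicalSpace (ALevel n X) :=
  TopologicalSpace.induced Subtype.val (freeAbTopology X).toTopologicalSpace

/-- `Y` is snf-countable: every point `y` has a countable sn-network, i.e. a countable family `F`
of sequential neighbourhoods of `y`, downwards directed, such that every open set containing `y`
contains a member of `F`. -/
def SnfCountable (Y : Type*) [TopologicalSpace Y] : Prop :=
  ∀ y : Y, ∃ F : Set (Set Y), F.Countable ∧
    (∀ P ∈ F, y ∈ P ∧ ∀ u : ℕ → Y, Tendsto u atTop (𝓝 y) → ∀ᶠ n in atTop, u n ∈ P) ∧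
    (∀ U : Set Y, IsOpen U → y ∈ U → ∃ P ∈ F, P ⊆ U) ∧
    (∀ P ∈ F, ∀ Q ∈ F, ∃ R ∈ F, R ⊆ P ∩ Q)

theorem result : ∀ (X : Type*) [TopologicalSpace X] [T35Space X],
    SnfCountable (ALevel 2 X) → SnfCountable (ALevel 3 X) := by
  intro X _ _
  letI : TopologicalSpace (FreeAbelianGroup X) := (freeAbTopology X).toTopologicalSpace
  intro h g
  have h1 : Pool.Agent.Q307.FTG.SnA (Pool.Agent.Q307.FTG.LevA 2 X) (0 : FreeAbelianGroup X) :=
    (Pool.Agent.Q307.FTG.snfAt_iff
      (A := Pool.Agent.Q307.FTG.LevA 2 X)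
      ⟨0, Pool.Agent.Q307.FTG.zero_mem_LevA 2⟩).1 (h ⟨0, Pool.Agent.Q307.FTG.zero_mem_LevA 2⟩)
  have h2 := Pool.Agent.Q307.FTG.snf_levA 3 h1 g.1 g.2
  exact (Pool.Agent.Q307.FTG.snfAt_iff (A := Pool.Agent.Q307.FTG.LevA 3 X) ⟨g.1, g.2⟩).2 h2

end Pool.Agent.Results.MP_e5b41c_gt.AbelianLevelThreeSnf
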